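import Pool.Agent.Helper31.LW.Goals

/-!
# Packet LW-CONV (MP_6fb600_gt, project LW): the volume of the image is convex along the fibres
-/

open MeasureTheory Set
open scoped ENNReal Matrix
open Pool.Agent.Helper47.AQ

noncomputable section

namespace Pool.Agent.Helper71.LW

open Pool.Agent.Helper31.LQ Pool.Agent.Helper31.LW

/-- The one-dimensional inequality. -/
theorem one_dim {I₀ I₁ J : Set ℝ} {r : ℝ} (hr : r ∈ Icc (0 : ℝ) 1) (h₀ : Convex ℝ I₀)
    (k₀ : IsCompact I₀) (h₁ : Convex ℝ I₁) (k₁ : IsCompact I₁)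
    (hJ : ∀ s ∈ J, ∃ s₀ ∈ I₀, ∃ s₁ ∈ I₁, s = (1 - r) * s₀ + r * s₁) :
    volume J ≤ ENNReal.ofReal (1 - r) * volume I₀ + ENNReal.ofReal r * volume I₁ := by
  rcases J.eq_empty_or_nonempty with rfl | ⟨s, hs⟩
  · simp
  obtain ⟨s₀, hs₀, s₁, hs₁, -⟩ := hJ s hs
  have e₀ : I₀ = Icc (sInf I₀) (sSup I₀) :=
    eq_Icc_of_connected_compact ⟨⟨s₀, hs₀⟩, h₀.isPreconnected⟩ k₀
  have e₁ : I₁ = Icc (sInf I₁) (sSup I₁) :=
    eq_Icc_of_connected_compact ⟨⟨s₁, hs₁⟩, h₁.isPreconnected⟩ k₁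
  have q₀ : sInf I₀ ≤ sSup I₀ := by
    have := e₀ ▸ hs₀
    exact this.1.trans this.2
  have q₁ : sInf I₁ ≤ sSup I₁ := by
    have := e₁ ▸ hs₁
    exact this.1.trans this.2
  have hsub : J ⊆ Icc ((1 - r) * sInf I₀ + r * sInf I₁) ((1 - r) * sSup I₀ + r * sSup I₁) := by
    intro t ht
    obtain ⟨t₀, ht₀, t₁, ht₁, rfl⟩ := hJ t ht
    rw [e₀] at ht₀
    rw [e₁] at ht₁
    have a : 0 ≤ 1 - r := by linarith [hr.2]
    have b : 0 ≤ r := hr.1
    exact ⟨add_le_add (mul_le_mul_of_nonneg_left ht₀.1 a) (mul_le_mul_of_nonneg_left ht₁.1 b),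
      add_le_add (mul_le_mul_of_nonneg_left ht₀.2 a) (mul_le_mul_of_nonneg_left ht₁.2 b)⟩
  refine (measure_mono hsub).trans ?_
  have v₀ : volume I₀ = ENNReal.ofReal (sSup I₀ - sInf I₀) := by
    conv_lhs => rw [e₀]
    rw [Real.volume_Icc]
  have v₁ : volume I₁ = ENNReal.ofReal (sSup I₁ - sInf I₁) := by
    conv_lhs => rw [e₁]
    rw [Real.volume_Icc]
  rw [v₀, v₁, Real.volume_Icc, ← ENNReal.ofReal_mul (by linarith [hr.2]),
    ← ENNReal.ofReal_mul hr.1, ← ENNReal.ofReal_add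
      (mul_nonneg (by linarith [hr.2]) (by linarith)) (mul_nonneg hr.1 (by linarith))]
  apply ENNReal.ofReal_le_ofReal
  apply le_of_eq
  ring

theorem symm_eq {e : ℕ} (s : ℝ) (y : Fin e → ℝ) :
    (MeasurableEquiv.piFinSuccAbove (fun _ : Fin (e + 1) => ℝ) 0).symm (s, y) =
      (Fin.cons (α := fun _ => ℝ) s y : Fin (e + 1) → ℝ) := by
  show (Fin.insertNth (α := fun _ => ℝ) 0 s y : Fin (e + 1) → ℝ) = _
  exact Fin.insertNth_zero' s y

theorem pre_eq {e : ℕ} (A : Set (Fin (e + 1) → ℝ)) (y : Fin e → ℝ) :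
    ((fun x : ℝ => (x, y)) ⁻¹'
      ((MeasurableEquiv.piFinSuccAbove (fun _ : Fin (e + 1) => ℝ) 0).symm ⁻¹' A)) =
      {s : ℝ | (Fin.cons (α := fun _ => ℝ) s y : Fin (e + 1) → ℝ) ∈ A} := by
  ext s
  simp only [mem_preimage, mem_ofPred_eq, symm_eq]

/-- Cavalieri for the coordinate `0`. -/
theorem slice {e : ℕ} {A : Set (Fin (e + 1) → ℝ)} (hA : MeasurableSet A) :
    volume A = ∫⁻ y : Fin e → ℝ,
      volume {s : ℝ | (Fin.cons (α := fun _ => ℝ) s y : Fin (e + 1) → ℝ) ∈ A} := by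
  have mp := (volume_preserving_piFinSuccAbove (fun _ : Fin (e + 1) => ℝ) 0).symm
  rw [← mp.measure_preimage_equiv A, Measure.volume_eq_prod, Measure.prod_apply_symm
    ((MeasurableEquiv.piFinSuccAbove (fun _ : Fin (e + 1) => ℝ) 0).symm.measurable hA)]
  refine lintegral_congr fun y => ?_
  rw [pre_eq]

/-- The sections depend measurably on `y`. -/
theorem slice_meas {e : ℕ} {A : Set (Fin (e + 1) → ℝ)} (hA : MeasurableSet A) :
    Measurable fun y : Fin e → ℝ =>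
      volume {s : ℝ | (Fin.cons (α := fun _ => ℝ) s y : Fin (e + 1) → ℝ) ∈ A} := by
  have h := measurable_measure_prodMk_right (μ := (volume : Measure ℝ))
    ((MeasurableEquiv.piFinSuccAbove (fun _ : Fin (e + 1) => ℝ) 0).symm.measurable hA)
  have e1 : (fun y : Fin e → ℝ => (volume : Measure ℝ) ((fun x : ℝ => (x, y)) ⁻¹'
      ((MeasurableEquiv.piFinSuccAbove (fun _ : Fin (e + 1) => ℝ) 0).symm ⁻¹' A))) =
      fun y : Fin e → ℝ =>
        volume {s : ℝ | (Fin.cons (α := fun _ => ℝ) s y : Fin (e + 1) → ℝ) ∈ A} :=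
    funext fun y => by rw [pre_eq]
  rw [← e1]
  exact h

/-- `lin Y` as a linear map. -/
def linL {n d : ℕ} (Y : Fin n → Fin d → ℝ) : (Fin n → ℝ) →ₗ[ℝ] (Fin d → ℝ) where
  toFun := lin Y
  map_add' x y := by
    funext c
    simp only [lin, Pi.add_apply, add_mul, Finset.sum_add_distrib]
  map_smul' t x := by
    funext c
    simp only [lin, Pi.smul_apply, smul_eq_mul, RingHom.id_apply, Finset.mul_sum, mul_assoc]

theorem lin_comp {n d : ℕ} (Y : Fin n → Fin d → ℝ) {K : Set (Fin n → ℝ)} (hK : IsCompact K) :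
    IsCompact (lin Y '' K) :=
  hK.image (show Continuous (linL Y) from LinearMap.continuous_of_finiteDimensional _)

theorem lin_conv {n d : ℕ} (Y : Fin n → Fin d → ℝ) {K : Set (Fin n → ℝ)} (hK : Convex ℝ K) :
    Convex ℝ (lin Y '' K) :=
  hK.linear_image (linL Y)

/-- The sections are convex. -/
theorem sec_conv {e : ℕ} {A : Set (Fin (e + 1) → ℝ)} (hA : Convex ℝ A) (y : Fin e → ℝ) :
    Convex ℝ {s : ℝ | (Fin.cons (α := fun _ => ℝ) s y : Fin (e + 1) → ℝ) ∈ A} := by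
  intro s hs t ht a b ha hb hab
  have h := hA hs ht ha hb hab
  have e1 : (Fin.cons (α := fun _ => ℝ) (a • s + b • t) y : Fin (e + 1) → ℝ) =
      a • (Fin.cons (α := fun _ => ℝ) s y : Fin (e + 1) → ℝ) +
        b • (Fin.cons (α := fun _ => ℝ) t y : Fin (e + 1) → ℝ) := by
    funext c
    refine Fin.cases ?_ (fun c => ?_) c
    · simp
    · simp only [Fin.cons_succ, Pi.add_apply, Pi.smul_apply, smul_eq_mul]
      rw [← add_mul, hab, one_mul]
  show (Fin.cons (α := fun _ => ℝ) (a • s + b • t) y : Fin (e + 1) → ℝ) ∈ A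
  rw [e1]
  exact h

/-- The sections are compact. -/
theorem sec_comp {e : ℕ} {A : Set (Fin (e + 1) → ℝ)} (hA : IsCompact A) (y : Fin e → ℝ) :
    IsCompact {s : ℝ | (Fin.cons (α := fun _ => ℝ) s y : Fin (e + 1) → ℝ) ∈ A} := by
  have hc : Continuous fun s : ℝ => (Fin.cons (α := fun _ => ℝ) s y : Fin (e + 1) → ℝ) := by
    refine continuous_pi fun c => ?_
    refine Fin.cases ?_ (fun c => ?_) c
    · simpa using continuous_id'
    · simpa using continuous_const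
  have hcl : IsClosed {s : ℝ | (Fin.cons (α := fun _ => ℝ) s y : Fin (e + 1) → ℝ) ∈ A} :=
    hA.isClosed.preimage hc
  refine (hA.image (continuous_apply (0 : Fin (e + 1)))).of_isClosed_subset hcl ?_
  intro s hs
  exact ⟨_, hs, by simp⟩

/-- The coordinate `0` of the image. -/
theorem lin_zero {e m : ℕ} (Z : Fin m → Fin e → ℝ) (b : Fin m → ℝ) (z : Fin (e + 1 + m) → ℝ) :
    lin (ch (top b Z)) z 0 = z (Fin.castAdd m 0) + ∑ l, z (Fin.natAdd (e + 1) l) * b l := by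
  unfold lin
  rw [Fin.sum_univ_add]
  simp only [ch, Fin.append_left, Fin.append_right, top, Fin.cons_zero]
  congr 1
  rw [Finset.sum_eq_single (0 : Fin (e + 1))]
  · simp
  · intro i _ hi
    rw [Pi.single_eq_of_ne (Ne.symm hi)]
    simp
  · simp

/-- The other coordinates of the image. -/
theorem lin_succ {e m : ℕ} (Z : Fin m → Fin e → ℝ) (b : Fin m → ℝ) (z : Fin (e + 1 + m) → ℝ)
    (c : Fin e) :
    lin (ch (top b Z)) z c.succ =
      z (Fin.castAdd m c.succ) + ∑ l, z (Fin.natAdd (e + 1) l) * Z l c := by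
  unfold lin
  rw [Fin.sum_univ_add]
  simp only [ch, Fin.append_left, Fin.append_right, top, Fin.cons_succ]
  congr 1
  rw [Finset.sum_eq_single c.succ]
  · simp
  · intro i _ hi
    rw [Pi.single_eq_of_ne (Ne.symm hi)]
    simp
  · simp

/-- Two points which agree off the coordinate `0` have the same image off the coordinate `0`. -/
theorem lin_off {e m : ℕ} (Z : Fin m → Fin e → ℝ) (b b' : Fin m → ℝ)
    {x z : Fin (e + 1 + m) → ℝ} (h : ∀ l, l ≠ Fin.castAdd m 0 → x l = z l) (c : Fin e) :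
    lin (ch (top b Z)) x c.succ = lin (ch (top b' Z)) z c.succ := by
  rw [lin_succ, lin_succ, h (Fin.castAdd m c.succ) (by
    intro h0
    have := congrArg Fin.val h0
    simp at this)]
  congr 1
  refine Finset.sum_congr rfl fun l _ => ?_
  rw [h (Fin.natAdd (e + 1) l) (by
    intro h0
    have := congrArg Fin.val h0
    simp at this)]

theorem natAdd_eq {e m : ℕ} {x z : Fin (e + 1 + m) → ℝ}
    (h : ∀ l, l ≠ Fin.castAdd m 0 → x l = z l) (l : Fin m) :
    x (Fin.natAdd (e + 1) l) = z (Fin.natAdd (e + 1) l) :=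
  h _ (by
    intro h0
    have := congrArg Fin.val h0
    simp at this)

/-- The section of the image of `L` is contained in the combination of the sections. -/
theorem sec_comb {e m : ℕ} {K₀ K₁ L : Set (Fin (e + 1 + m) → ℝ)} {r : ℝ}
    (hF : Fib (Fin.castAdd m 0) K₀ K₁ L r) (Z : Fin m → Fin e → ℝ) (b₀ b₁ : Fin m → ℝ)
    (y : Fin e → ℝ) (s : ℝ)
    (hs : (Fin.cons (α := fun _ => ℝ) s y : Fin (e + 1) → ℝ) ∈
      lin (ch (top (fun l => (1 - r) * b₀ l + r * b₁ l) Z)) '' L) :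
    ∃ s₀ ∈ {s : ℝ | (Fin.cons (α := fun _ => ℝ) s y : Fin (e + 1) → ℝ) ∈
        lin (ch (top b₀ Z)) '' K₀},
      ∃ s₁ ∈ {s : ℝ | (Fin.cons (α := fun _ => ℝ) s y : Fin (e + 1) → ℝ) ∈
        lin (ch (top b₁ Z)) '' K₁}, s = (1 - r) * s₀ + r * s₁ := by
  obtain ⟨z, hz, hzs⟩ := hs
  obtain ⟨x, hx, x', hx', hoff, h0⟩ := hF z hz
  have hy : ∀ c : Fin e, lin (ch (top (fun l => (1 - r) * b₀ l + r * b₁ l) Z)) z c.succ = y c := by
    intro c
    rw [hzs, Fin.cons_succ]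
  refine ⟨lin (ch (top b₀ Z)) x 0, ⟨x, hx, ?_⟩, lin (ch (top b₁ Z)) x' 0, ⟨x', hx', ?_⟩, ?_⟩
  · funext c
    refine Fin.cases ?_ (fun c => ?_) c
    · simp
    · rw [Fin.cons_succ, lin_off Z b₀ (fun l => (1 - r) * b₀ l + r * b₁ l)
        (fun l hl => (hoff l hl).1), hy]
  · funext c
    refine Fin.cases ?_ (fun c => ?_) c
    · simp
    · rw [Fin.cons_succ, lin_off Z b₁ (fun l => (1 - r) * b₀ l + r * b₁ l)
        (fun l hl => (hoff l hl).2), hy]
  · have e0 : s = lin (ch (top (fun l => (1 - r) * b₀ l + r * b₁ l) Z)) z 0 := by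
      rw [hzs, Fin.cons_zero]
    rw [e0, lin_zero, lin_zero, lin_zero, h0]
    have e1 : ∀ l, x (Fin.natAdd (e + 1) l) = z (Fin.natAdd (e + 1) l) :=
      natAdd_eq fun l hl => (hoff l hl).1
    have e2 : ∀ l, x' (Fin.natAdd (e + 1) l) = z (Fin.natAdd (e + 1) l) :=
      natAdd_eq fun l hl => (hoff l hl).2
    simp only [e1, e2]
    rw [mul_add, mul_add, Finset.mul_sum, Finset.mul_sum]
    have e3 : ∑ l, z (Fin.natAdd (e + 1) l) * ((1 - r) * b₀ l + r * b₁ l) =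
        ∑ l, (1 - r) * (z (Fin.natAdd (e + 1) l) * b₀ l) +
          ∑ l, r * (z (Fin.natAdd (e + 1) l) * b₁ l) := by
      rw [← Finset.sum_add_distrib]
      refine Finset.sum_congr rfl fun l _ => ?_
      ring
    rw [e3]
    ring

/-- **CONV.** -/
theorem gCONV : Pool.Agent.Helper31.LW.CONV := by
  intro e m K₀ K₁ L hc₀ hk₀ hc₁ hk₁ _ hkL r hr hF Z b₀ b₁
  set b : Fin m → ℝ := fun l => (1 - r) * b₀ l + r * b₁ l with hb
  have cL := lin_comp (ch (top b Z)) hkL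
  have c₀ := lin_comp (ch (top b₀ Z)) hk₀
  have c₁ := lin_comp (ch (top b₁ Z)) hk₁
  have key : volume (lin (ch (top b Z)) '' L) ≤
      ENNReal.ofReal (1 - r) * volume (lin (ch (top b₀ Z)) '' K₀) +
        ENNReal.ofReal r * volume (lin (ch (top b₁ Z)) '' K₁) := by
    rw [slice cL.measurableSet, slice c₀.measurableSet, slice c₁.measurableSet,
      ← lintegral_const_mul _ (slice_meas c₀.measurableSet),
      ← lintegral_const_mul _ (slice_meas c₁.measurableSet),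
      ← lintegral_add_left ((slice_meas c₀.measurableSet).const_mul _)]
    refine lintegral_mono fun y => ?_
    exact one_dim hr (sec_conv (lin_conv _ hc₀) y) (sec_comp c₀ y)
      (sec_conv (lin_conv _ hc₁) y) (sec_comp c₁ y) (sec_comb hF Z b₀ b₁ y)
  have f₀ : volume (lin (ch (top b₀ Z)) '' K₀) ≠ ⊤ := c₀.measure_lt_top.ne
  have f₁ : volume (lin (ch (top b₁ Z)) '' K₁) ≠ ⊤ := c₁.measure_lt_top.ne
  have g₀ : ENNReal.ofReal (1 - r) * volume (lin (ch (top b₀ Z)) '' K₀) ≠ ⊤ :=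
    ENNReal.mul_ne_top ENNReal.ofReal_ne_top f₀
  have g₁ : ENNReal.ofReal r * volume (lin (ch (top b₁ Z)) '' K₁) ≠ ⊤ :=
    ENNReal.mul_ne_top ENNReal.ofReal_ne_top f₁
  have h := ENNReal.toReal_mono (ENNReal.add_ne_top.mpr ⟨g₀, g₁⟩) key
  rw [ENNReal.toReal_add g₀ g₁, ENNReal.toReal_mul, ENNReal.toReal_mul,
    ENNReal.toReal_ofReal (by linarith [hr.2]), ENNReal.toReal_ofReal hr.1] at h
  exact h

end Pool.Agent.Helper71.LW
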